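import Pool.Agent.Lib.SCM.Main2

/-!
# Set Cover: complete problems

Word RAM of `Pool.Agent.Lib.SCR.Model`; `Coverable` there, `FastAt` and `base` in `Pool.Agent.Lib.SCN.Defs3`; `FastL`, `baseL`
and the problems `SteinerTree`, `ColourfulPath` in `Pool.Agent.Lib.SCM.Defs`, `GraphMotif`, `SetCoverNK` in
`Pool.Agent.Lib.SCM.Defs2`, `CircuitMonomial` in `Pool.Agent.Lib.SCM.Defs3`.

Steiner Tree (parameter: number of terminals), colourful Graph Motif and Colourful Path (number of colours), the full
monomial of a monotone circuit (number of variables) and Set Cover with the parameter `n + k` have the same optimal base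
as Set Cover (number `n` of elements). The Set Cover Conjecture says that it is 2.
-/

namespace Pool.Agent.Results.MP_8fffab_lc.CompleteProblems

open SCR SCN SCM

theorem result : baseL SteinerTree = base Coverable ∧ baseL GraphMotif = base Coverable ∧
    baseL ColourfulPath = base Coverable ∧ baseL CircuitMonomial = base Coverable ∧
    baseL SetCoverNK = base Coverable :=
  completeness3

end Pool.Agent.Results.MP_8fffab_lc.CompleteProblems
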