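import Pool.Agent.Lib.SCR.HT

/-!
Set Cover below `2^n`: a deterministic algorithm with an explicit saving on every instance.
-/

open SCR in
theorem Pool.Agent.Results.MP_8fffab_lc.EveryInstance.result :
    ∃ P : List Instr, ∀ (n k : ℕ) (L : List (Finset (Fin n))),
      Decides P n k L (200 * 2 ^ n * (n + L.length + 1) ^ 2)
        ⌊1200 * ((n : ℝ) + L.length + 1) ^ 3 *
          2 ^ ((n : ℝ) - n / (1440 * Real.logb 2 (2 + L.length / n)))⌋₊ :=
  everyInstance
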