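import Pool.Agent.Lib.SCR.K3

/-!
Set Cover in time `β^n poly`, `β < 2`, for all instances with `k ≥ ε n` and for all instances in which the
members with at least `s` elements have at most `2^((2-ε) n)` subfamilies with `k` members.
-/

open SCR in
theorem Pool.Agent.Results.MP_8fffab_lc.LargeCoversFewFamilies.result (ε : ℝ) (hε : 0 < ε) (s : ℕ) :
    ∃ (P : List Instr) (β : ℝ) (c : ℕ), β < 2 ∧ ∀ (n k : ℕ) (L : List (Finset (Fin n))),
      (ε * n ≤ k ∨
        (((L.toFinset.filter fun A => s ≤ A.card).card.choose k : ℕ) : ℝ) ≤ 2 ^ ((2 - ε) * n)) →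
      ∃ T : ℕ, (T : ℝ) ≤ c * β ^ n * (n + L.length + 2) ^ c ∧
        Decides P n k L (c * 2 ^ n * (n + L.length + 2) ^ c) T :=
  dichotomy ε hε s
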