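import Pool.Agent.Lib.SCN.O3

/-!
# Set Cover: the optimal base

Word RAM of `Pool.Agent.Lib.SCR.Model`; the problems `Coverable` (there), `Exact`, `Part`, `Pack` in
`Pool.Agent.Lib.SCN.Defs`, `Uniform` and `FastMatching` in `Pool.Agent.Lib.SCN.Defs2`, `FastAt`, `base`,
`matchingBase` in `Pool.Agent.Lib.SCN.Defs3`.

Set Cover, exact cover, partition into at most `k` sets and packing of `k` disjoint nonempty sets have the same
optimal base `c`; it is the limit of the optimal bases `c_K` for perfect matchings in `n/K`-uniform hypergraphs with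
`n` vertices, and `c ≤ max (c_K, K (K-1)^(1/K-1))` for every `K ≥ 2`. The Set Cover Conjecture says `c = 2`.
-/

namespace Pool.Agent.Results.MP_8fffab_lc.OptimalBase

open SCR SCN

theorem result :
    base Exact = base Coverable ∧ base Part = base Coverable ∧ base Pack = base Coverable ∧
      1 ≤ base Coverable ∧ base Coverable ≤ 2 ∧ (∀ K, 1 ≤ matchingBase K) ∧
      Filter.Tendsto matchingBase Filter.atTop (nhds (base Coverable)) ∧
      ∀ K : ℕ, 2 ≤ K → base Coverable ≤ max (matchingBase K) ((K : ℝ) * ((K : ℝ) - 1) ^ (1 / (K : ℝ) - 1)) :=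
  optimalBase

end Pool.Agent.Results.MP_8fffab_lc.OptimalBase
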